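import Pool.Agent.V11288.HS.Fin
import Pool.Agent.TH270.MS.EQ3
import Pool.Agent.TH270.MS.GrowthF
import Pool.Agent.TH941.Newform

/-!
# The Birch and Swinnerton-Dyer products and the values of `L(C, s)` on the critical line

Let `C : y² = x³ + a x + b` be an elliptic curve over `ℚ`, `a, b ∈ ℤ`, let `F` be the entire continuation of its
incomplete `L`-series, `f` its newform, `a_p = p - N_p`, and for the primes `p ∤ 2Δ` and `k ≥ 1` let
`a(p, k) = p^k + 1 - #C(𝔽_{p^k})` (so `a(p, 1) = a_p`, `a(p, 0) = 2`, `a(p, k+2) = a_p a(p, k+1) - p a(p, k)`).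
Consider the partial Euler products at the central point over all finite fields with at most `Y` elements

`log P(Y) = ∑_{p^k ≤ Y, p ∤ 2Δ} a(p, k) / (k p^k)`,

(`P(Y)⁻¹` is the product of Birch and Swinnerton-Dyer `∏_{p ≤ Y} #C(𝔽_p)/p` completed by the prime powers).
The numerical form of the conjecture is `P(Y)⁻¹ ~ e^{rγ} A⁻¹ (log Y)^r`, `r` the rank.

It is shown for all real `ρ` and all `A > 0`:

1. The integral `∫_1^∞ (log P(Y) + ρ (log log Y + γ) - log A)² dY/Y` converges IF AND ONLY IF `F(s)` has no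
   zeros with `Re s > 1` (the Riemann hypothesis for `C`), `ρ` is the order `m` of the zero of `F` at `s = 1`
   and `A = F^{(m)}(1)/m!`.

2. In this case there is the formula

   `∫_1^∞ (log P(Y) + ρ (log log Y + γ) - log A)² dY/Y = (1/π) ∫_{-∞}^∞ (log |F(1 + it)| - ρ log |t| - log A)² dt/t²`.

So under the Riemann hypothesis the mean square of the error in the numerical form of the conjecture is given
EXACTLY by the absolute values of `L(C, s)` on the critical line; the argument of `L(C, s)` does not occur.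

3. Hence the following are equivalent: the rank form of the conjecture of Birch and Swinnerton-Dyer and the
   Riemann hypothesis for `C`; the convergence of the first integral with `ρ = rank C(ℚ)` for some `A > 0`; the
   formula in 2 with `ρ = rank C(ℚ)` and finite values, for some `A > 0`.

Proof. The Laplace transform of `T ↦ log P(e^T) + ρ (log T + γ) - log A` is
`(log F(1 + s) - ρ log s - log A)/s` for `Re s > 1/2`. If its mean square is finite, then it is in the Hardy space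
`H²` of the half plane `Re s > 0`, hence `F(1 + s)` has a holomorphic logarithm there, the boundary values are
taken in `L²` (for the values at height `t` with `F(1 + it) ≠ 0`, that is for almost all `t`), and the imaginary
part of the boundary function, which is `-(log |F(1 + it)| - ρ log |t| - log A)/t`, has half of the mean square
since the original function is real and supported on `(0, ∞)`. The convergence under the Riemann hypothesis
is the mean square theorem of the library (`Pool.Agent.TH270.MS`), which uses the growth of `F` to the left of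
the centre (from the newform `f`).
-/

set_option autoImplicit false

namespace Pool.Agent.Results.MP_696deb_nt.CriticalLineFormula

open Pool.Agent.W263.BSD (GoodPrime pointCount IsLSeries)
open Filter Topology MeasureTheory Set CongruenceSubgroup UpperHalfPlane
open scoped MatrixGroups

/-- The rank of the group of rational points of `y² = x³ + a x + b`. -/
noncomputable def rank (a b : ℤ) : ℕ :=
  Module.finrank ℤ
    (WeierstrassCurve.Affine.Point
      (WeierstrassCurve.toAffine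
        ({ a₁ := 0, a₂ := 0, a₃ := 0, a₄ := (a : ℚ), a₆ := (b : ℚ) } : WeierstrassCurve ℚ)))

/-- `a(p, k) = p^k + 1 - #C(𝔽_{p^k}) = α^k + β^k`, `α`, `β` the roots of `T² - a_p T + p`, `a_p = p - N_p`. -/
noncomputable def trace (a b : ℤ) (p : ℕ) : ℕ → ℝ
  | 0 => 2
  | 1 => (p : ℝ) - pointCount a b p
  | k + 2 => ((p : ℝ) - pointCount a b p) * trace a b p (k + 1) - p * trace a b p k

/-- `log P(Y)`: the sum of `a(p, k)/(k p^k)` over all primes `p ∤ 2Δ` and `k ≥ 1` (here `k = v.2 + 1`) with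
`p^k ≤ Y`. -/
noncomputable def logP (a b : ℤ) (Y : ℝ) : ℝ :=
  ∑ᶠ (v : {p : ℕ // GoodPrime a b p} × ℕ) (_ : (v.1.1 : ℝ) ^ (v.2 + 1) ≤ Y),
    trace a b v.1.1 (v.2 + 1) / (((v.2 : ℝ) + 1) * (v.1.1 : ℝ) ^ (v.2 + 1))

/-- `∫_1^∞ (log P(Y) + ρ (γ + log log Y) - log A)² dY/Y ∈ [0, ∞]`. -/
noncomputable def meanSquare (a b : ℤ) (ρ A : ℝ) : ENNReal :=
  ∫⁻ Y in Ioi (1 : ℝ), ENNReal.ofReal
    ((logP a b Y + ρ * (Real.eulerMascheroniConstant + Real.log (Real.log Y)) - Real.log A) ^ 2 / Y)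

/-- `(1/π) ∫_{-∞}^∞ (log |F(1 + it)| - ρ log |t| - log A)² dt/t² ∈ [0, ∞]`. -/
noncomputable def criticalLine (F : ℂ → ℂ) (ρ A : ℝ) : ENNReal :=
  ENNReal.ofReal Real.pi⁻¹ * ∫⁻ t : ℝ, ENNReal.ofReal
    ((Real.log ‖F (1 + t * Complex.I)‖ - ρ * Real.log |t| - Real.log A) ^ 2 / t ^ 2)

/-- The `n`-th Fourier coefficient of `f`. -/
noncomputable def coef {N : ℕ} (f : CuspForm (Gamma0 N : Subgroup (GL (Fin 2) ℝ)) 2) (n : ℕ) : ℂ :=
  (qExpansion 1 f).coeff n

/-- `f ∈ S_2(Γ₀(N))` is the newform of the elliptic curve `E : y² = x³ + a x + b` of conductor `N`: the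
Fourier coefficients `c(n)` of `f` are real with `c(1) = 1`, they satisfy the Hecke relations
`c(mn) = c(m) c(n)` for coprime `m`, `n` and `c(p^(j+2)) = c(p) c(p^(j+1)) - p c(p^j)` (without the last
term if `p ∣ N`), `c(p) = a_p = p - N_p` (`N_p` affine points) for all primes `p ∤ 2Δ`, `|c(p)| ≤ 2 √p` for
all `p ∤ N` (Hasse) and `c(p) = 0, 1, -1` for `p ∣ N`. -/
structure IsNewformOf (a b : ℤ) (N : ℕ) (f : CuspForm (Gamma0 N : Subgroup (GL (Fin 2) ℝ)) 2) :
    Prop where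
  one : coef f 1 = 1
  real : ∀ n, (coef f n).im = 0
  mul : ∀ m n : ℕ, Nat.Coprime m n → coef f (m * n) = coef f m * coef f n
  pow : ∀ p j : ℕ, p.Prime → coef f (p ^ (j + 2)) = coef f p * coef f (p ^ (j + 1)) -
      (if p ∣ N then 0 else (p : ℂ) * coef f (p ^ j))
  points : ∀ p : ℕ, GoodPrime a b p → coef f p = (p : ℂ) - (pointCount a b p : ℂ)
  good : ∀ p : ℕ, p.Prime → ¬ p ∣ N → ‖coef f p‖ ≤ 2 * Real.sqrt p
  bad : ∀ p : ℕ, p.Prime → p ∣ N → coef f p = 0 ∨ coef f p = 1 ∨ coef f p = -1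

/-- `F` has no zeros with `Re s > 1`. -/
def NoZeros (F : ℂ → ℂ) : Prop := ∀ s : ℂ, 1 < s.re → F s ≠ 0

theorem hecke {a b : ℤ} {N : ℕ} {f : CuspForm (Gamma0 N : Subgroup (GL (Fin 2) ℝ)) 2}
    (hf : IsNewformOf a b N f) : Pool.Agent.TH941.Hecke f where
  one := hf.one
  real := hf.real
  mul := hf.mul
  pow := hf.pow
  good := hf.good
  bad := fun p hp h => by
    rcases hf.bad p hp h with h1 | h1 | h1
    · have h2 : ‖coef f p‖ ≤ 1 := by rw [h1]; simp
      exact h2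
    · have h2 : ‖coef f p‖ ≤ 1 := by rw [h1]; simp
      exact h2
    · have h2 : ‖coef f p‖ ≤ 1 := by rw [h1]; simp
      exact h2

open Pool.Agent.TH942.ES
open Pool.Agent.TH270.MS
open Pool.Agent.TH270.MS.EQ
open Pool.Agent.V11288

variable {a b : ℤ} {F : ℂ → ℂ}

theorem trace_eq (v : {p : ℕ // GoodPrime a b p}) (k : ℕ) :
    ∑ i, zv (nQ a b) (alQ a b) v i ^ k = ((trace a b v.1 k / (v.1 : ℝ) ^ k : ℝ) : ℂ) := by
  have hp2 := two_le' v
  have hn0 : (0 : ℝ) < v.1 := by linarith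
  have hnc : ((v.1 : ℕ) : ℂ) ≠ 0 := by exact_mod_cast hn0.ne'
  have h1 := sqrt_pos' v
  have hs2 : ((√(v.1 : ℝ) : ℝ) : ℂ) ^ 2 = v.1 := by
    rw [← Complex.ofReal_pow, Real.sq_sqrt hn0.le]
    push_cast
    rfl
  have h1c : ((√(v.1 : ℝ) : ℝ) : ℂ) ≠ 0 := by exact_mod_cast h1.ne'
  set z₀ := zv (nQ a b) (alQ a b) v 0 with hz₀
  set z₁ := zv (nQ a b) (alQ a b) v 1 with hz₁
  have e4 : ∀ i, zv (nQ a b) (alQ a b) v i = rt (tQ a b v.1) i * (((√(v.1 : ℝ) : ℝ) : ℂ))⁻¹ := by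
    intro i
    unfold zv alQ nQ
    rw [div_eq_mul_inv]
  -- sum and product of the roots
  have hrt0 : rt (tQ a b v.1) 0 = (tQ a b v.1 : ℂ) + √(1 - (tQ a b v.1) ^ 2) * Complex.I := rfl
  have hrt1 : rt (tQ a b v.1) 1 = (tQ a b v.1 : ℂ) - √(1 - (tQ a b v.1) ^ 2) * Complex.I := rfl
  have ht := tQ_abs v
  have h3 : 0 ≤ 1 - (tQ a b v.1) ^ 2 := by
    have := sq_le_one_iff_abs_le_one (tQ a b v.1) |>.2 ht
    linarith
  have hsum : z₀ + z₁ = (((v.1 : ℝ) - pointCount a b v.1 : ℝ) : ℂ) / v.1 := by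
    rw [hz₀, hz₁, e4, e4, hrt0, hrt1]
    have e5 : ((tQ a b v.1 : ℝ) : ℂ) = (((v.1 : ℝ) - pointCount a b v.1 : ℝ) : ℂ) /
        (2 * ((√(v.1 : ℝ) : ℝ) : ℂ)) := by
      unfold tQ
      push_cast
      rfl
    have e6 : ((tQ a b v.1 : ℂ) + √(1 - (tQ a b v.1) ^ 2) * Complex.I) * (((√(v.1 : ℝ) : ℝ) : ℂ))⁻¹ +
        ((tQ a b v.1 : ℂ) - √(1 - (tQ a b v.1) ^ 2) * Complex.I) * (((√(v.1 : ℝ) : ℝ) : ℂ))⁻¹ =
        2 * (tQ a b v.1 : ℂ) * (((√(v.1 : ℝ) : ℝ) : ℂ))⁻¹ := by ring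
    rw [e6, e5, ← hs2]
    field_simp
  have hprod : z₀ * z₁ = 1 / (v.1 : ℂ) := by
    rw [hz₀, hz₁, e4, e4]
    have e5 : rt (tQ a b v.1) 0 * rt (tQ a b v.1) 1 = 1 := by
      rw [hrt0, hrt1]
      have e6 : ((√(1 - (tQ a b v.1) ^ 2) : ℝ) : ℂ) ^ 2 = 1 - (tQ a b v.1 : ℂ) ^ 2 := by
        rw [← Complex.ofReal_pow, Real.sq_sqrt h3]
        push_cast
        rfl
      have e7 : ((tQ a b v.1 : ℂ) + √(1 - (tQ a b v.1) ^ 2) * Complex.I) *
          ((tQ a b v.1 : ℂ) - √(1 - (tQ a b v.1) ^ 2) * Complex.I) =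
          (tQ a b v.1 : ℂ) ^ 2 - ((√(1 - (tQ a b v.1) ^ 2) : ℝ) : ℂ) ^ 2 * Complex.I ^ 2 := by ring
      rw [e7, e6, Complex.I_sq]
      ring
    have e6 : rt (tQ a b v.1) 0 * (((√(v.1 : ℝ) : ℝ) : ℂ))⁻¹ *
        (rt (tQ a b v.1) 1 * (((√(v.1 : ℝ) : ℝ) : ℂ))⁻¹) =
        (rt (tQ a b v.1) 0 * rt (tQ a b v.1) 1) * ((((√(v.1 : ℝ) : ℝ) : ℂ)) ^ 2)⁻¹ := by
      rw [← inv_pow]
      ring
    rw [e6, e5, hs2, one_mul, one_div]
  have key : ∀ k : ℕ, z₀ ^ k + z₁ ^ k = ((trace a b v.1 k / (v.1 : ℝ) ^ k : ℝ) : ℂ) ∧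
      z₀ ^ (k + 1) + z₁ ^ (k + 1) = ((trace a b v.1 (k + 1) / (v.1 : ℝ) ^ (k + 1) : ℝ) : ℂ) := by
    intro k
    induction k with
    | zero =>
      refine ⟨?_, ?_⟩
      · simp only [pow_zero, trace]
        norm_num
      · simp only [zero_add, pow_one, trace]
        rw [hsum]
        push_cast
        rfl
    | succ k ih =>
      refine ⟨ih.2, ?_⟩
      have e5 : z₀ ^ (k + 1 + 1) + z₁ ^ (k + 1 + 1) = (z₀ + z₁) * (z₀ ^ (k + 1) + z₁ ^ (k + 1)) -
          (z₀ * z₁) * (z₀ ^ k + z₁ ^ k) := by ring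
      rw [e5, ih.1, ih.2, hsum, hprod]
      have e6 : trace a b v.1 (k + 1 + 1) = ((v.1 : ℝ) - pointCount a b v.1) *
          trace a b v.1 (k + 1) - v.1 * trace a b v.1 k := rfl
      rw [e6]
      push_cast
      field_simp
      ring
  rw [Fin.sum_univ_two]
  exact (key k).1

theorem logP_eq (Y : ℝ) : logP a b Y = Pl (nQ a b) (alQ a b) Y := by
  unfold logP Pl
  refine finsum_congr fun p => finsum_congr fun _ => ?_
  unfold cP
  rw [trace_eq, Complex.ofReal_re, div_div, mul_comm]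

theorem meanSquare_eq (ρ A : ℝ) : meanSquare a b ρ A =
    ∫⁻ Y in Ioi (1 : ℝ), ENNReal.ofReal (HS.Dr (nQ a b) (alQ a b) ρ (Real.log A) Y ^ 2 / Y) := by
  unfold meanSquare HS.Dr
  simp only [logP_eq]

/-- **The products of Birch and Swinnerton-Dyer and the critical line.** -/
theorem result (a b : ℤ) (hΔ : 4 * a ^ 3 + 27 * b ^ 2 ≠ 0) (F : ℂ → ℂ) (hF : IsLSeries a b F)
    (N : ℕ) [NeZero N] (f : CuspForm (Gamma0 N : Subgroup (GL (Fin 2) ℝ)) 2)
    (hf : IsNewformOf a b N f) :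
    (∀ ρ A : ℝ, 0 < A →
      ((NoZeros F ∧ ∃ m : ℕ, ρ = m ∧ analyticOrderAt F 1 = m ∧
        iteratedDeriv m F 1 / (m.factorial : ℂ) = (A : ℂ)) ↔ meanSquare a b ρ A < ⊤) ∧
      (meanSquare a b ρ A < ⊤ → meanSquare a b ρ A = criticalLine F ρ A)) ∧
    List.TFAE [
      NoZeros F ∧ analyticOrderAt F 1 = rank a b,
      ∃ A : ℝ, 0 < A ∧ meanSquare a b (rank a b) A < ⊤,
      ∃ A : ℝ, 0 < A ∧ meanSquare a b (rank a b) A = criticalLine F (rank a b) A ∧
        criticalLine F (rank a b) A < ⊤] := by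
  classical
  obtain ⟨C₀, κ, hg⟩ := growth_F hΔ hF (hecke hf) fun p hp => hf.points p hp
  have H := curve_mc hF (by norm_num : (0 : ℝ) < 1 / 8) hg
  have hz : NoZeros F ↔ ∀ s : ℂ, 0 < s.re → F (1 + s) ≠ 0 := by
    constructor
    · intro h s hs
      exact h _ (by simpa using hs)
    · intro h s hs
      have := h (s - 1) (by simpa using hs)
      rwa [add_sub_cancel] at this
  have hformula : ∀ ρ A : ℝ, meanSquare a b ρ A < ⊤ → meanSquare a b ρ A = criticalLine F ρ A := by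
    intro ρ A h
    rw [meanSquare_eq] at h ⊢
    exact HS.crit_line H ρ (Real.log A) h
  have hiff : ∀ ρ A : ℝ, (meanSquare a b ρ A < ⊤) ↔
      IntegrableOn (fun Y : ℝ => DvR (nQ a b) (alQ a b) ρ A Y ^ 2 / Y) (Ioi (Real.exp 1)) := by
    intro ρ A
    rw [meanSquare_eq]
    exact HS.fin_iff H.E ρ A
  refine ⟨fun ρ A hA => ⟨?_, hformula ρ A⟩, ?_⟩
  · have t := (H.tfae_lead_real ρ hA).out 0 1
    rw [hiff, ← t, hz]
    refine and_congr_right fun _ => exists_congr fun m => and_congr_right fun _ => ?_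
    exact (lim_iff hF (by exact_mod_cast hA.ne')).symm
  · have t : ((∀ s : ℂ, 0 < s.re → F (1 + s) ≠ 0) ∧ ∃ m : ℕ, ((rank a b : ℕ) : ℝ) = m ∧
        meromorphicOrderAt (fun s => F (1 + s)) 0 = (m : ℤ)) ↔
        ∃ A : ℝ, 0 < A ∧ IntegrableOn (fun Y : ℝ =>
          DvR (nQ a b) (alQ a b) (rank a b) A Y ^ 2 / Y) (Ioi (Real.exp 1)) :=
      (H.tfae_order_real (rank a b)).out 0 1
    have h12 : (NoZeros F ∧ analyticOrderAt F 1 = rank a b) ↔
        ∃ A : ℝ, 0 < A ∧ meanSquare a b (rank a b) A < ⊤ := by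
      simp only [hiff]
      rw [← t, hz]
      refine and_congr_right fun _ => ?_
      constructor
      · intro h
        exact ⟨rank a b, rfl, (mero_iff hF).2 h⟩
      · rintro ⟨m, h1, h2⟩
        have h3 : rank a b = m := by exact_mod_cast h1
        rw [h3]
        exact (mero_iff hF).1 h2
    tfae_have 1 ↔ 2 := h12
    tfae_have 2 → 3 := by
      rintro ⟨A, hA, h⟩
      have h1 := hformula _ _ h
      exact ⟨A, hA, h1, h1 ▸ h⟩
    tfae_have 3 → 2 := by
      rintro ⟨A, hA, h1, h2⟩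
      exact ⟨A, hA, h1 ▸ h2⟩
    tfae_finish

end Pool.Agent.Results.MP_696deb_nt.CriticalLineFormula
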