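import Pool.Agent.V11288.BS.Cur
import Pool.Agent.TH941.Newform

/-!
# Numerical forms of the conjecture of Birch and Swinnerton-Dyer with arbitrary weights of compact support

Let `C : y² = x³ + a x + b` be an elliptic curve over `ℚ`, `a, b ∈ ℤ`, let `N_p` be the number of
affine points modulo the good primes `p ∤ 2Δ`, let `F` be the entire continuation of the incomplete
`L`-series. The numerical form in which Birch and Swinnerton-Dyer found their
conjecture is `∑_{p ≤ X} log ((N_p + 1)/p) = rank log log X + O(1)`; more generally one considers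

`S_w(X) = ∑_{p ≤ X^β, p ∤ 2Δ} w (log p / log X) log ((N_p + 1)/p)`

with a weight `w` of compact support: `w` is bounded and measurable, zero to the right of `β > 0`, and it
does not vanish almost everywhere on an interval `(κ, β)`. No other regularity is assumed in the
first two statements.

1. EVERY such weight sees every zero of `F` to the right of the central line: if `F(s) = 0`, `Re s > 1`,
   then `|S_w(X)| > K X^α` for arbitrarily large `X`, for all `K` and all `α < β (Re s - 1)`.
2. If moreover `w(u) → 1` for `u → 0` in the sense that `∫_0^β |w(u) - 1| du/u < ∞`, and if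
   `S_w(X) / log log X` converges to a number `ρ`, then `F` has no zeros with `Re s > 1` (the Riemann
   hypothesis for `C`) and `ρ = ord_{s=1} F`. For the sharp cut-off `w = 1` on `[0, 1]` this is
   Goldfeld's theorem (1982). So there is no numerical form with a compactly supported weight that is
   equivalent to the rank form alone, unless the Riemann hypothesis is true for `C`.
3. Conversely let `f` be the newform of `C`, let `F` have no zeros with `Re s > 1` and
   `m = ord_{s=1} F`. Then for every weight with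
   a square integrable derivative, `w(u) = ∫_u^β g(t) dt`, `g ∈ L²(0, β)`, `∫_0^β g = 1`,
   `S_w(X) = m log log X + c + m ∫_0^β g(t) log t dt + o(1)`,
   where `e^c = √2 e^{mγ} m! / F^{(m)}(1)`; for the Riesz weights `(1 - u)^k` of any real order `k > 0`
   the constant is `c - m (γ + Γ'(k+1)/Γ(k+1))`.
4. Hence the following are equivalent: the rank form and the Riemann hypothesis for `C`; the numerical form
   `S_w(X) ~ rank log log X` for ONE weight as in 2; for one weight with a square integrable derivative;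
   for one Riesz weight; the convergence of `S_w(X) - rank log log X` for ALL weights with a square
   integrable derivative; the same for all Riesz weights.

Proof. 1. The means are invariant in the logarithmic scale, so the Laplace transform of
`T ↦ S_w(e^T)` is the average `∫_0^β w(u) G(s/u) du/u` of `G = -(F'/F)(1 + ·) + ...`, and in a cone
around an outermost zero it is the Cauchy transform of `w`, which cannot be continued across `(κ, β)`.
No property of the Mellin transform of `w` is needed. 2. With 1 and an Abelian theorem for logarithmic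
growth. (1 and 2 are in the library: `Pool.Agent.TH942.LS`, Riesz means in `Pool.Agent.TH942.RZ`.)
3. `S_w(X) = ∫_0^β g(t) log P(X^t) dt` for the original product `P`; by the mean square law
(`Pool.Agent.TH270.MS`) `log P(e^y) - m log y - c` tends to zero in quadratic mean on `[1, Y]`, `Y → ∞`.
-/

set_option autoImplicit false

namespace Pool.Agent.Results.MP_696deb_nt.EveryCompactWeight

open Pool.Agent.W263.BSD Filter Topology Classical MeasureTheory Set
open CongruenceSubgroup UpperHalfPlane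
open scoped MatrixGroups

/-- The rank of the group of rational points of `y² = x³ + a x + b`. -/
noncomputable def rank (a b : ℤ) : ℕ :=
  Module.finrank ℤ
    (WeierstrassCurve.Affine.Point
      (WeierstrassCurve.toAffine
        ({ a₁ := 0, a₂ := 0, a₃ := 0, a₄ := (a : ℚ), a₆ := (b : ℚ) } : WeierstrassCurve ℚ)))

/-- `S_w(X) = ∑_{p ≤ X^β, p ∤ 2Δ} w (log p / log X) log ((N_p + 1) / p)`. -/
noncomputable def weightedSum (a b : ℤ) (β : ℝ) (w : ℝ → ℝ) (X : ℝ) : ℝ :=
  ∑ p ∈ (Finset.range (⌊X ^ β⌋₊ + 1)).filter (GoodPrime a b),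
    w (Real.log p / Real.log X) * Real.log (((pointCount a b p : ℝ) + 1) / p)

/-- Weights of compact support: `w` is bounded and measurable, it is zero to the right of `β > 0`, and
it does not vanish almost everywhere on `(κ, β)` for any `κ < β`. -/
structure Weight (w : ℝ → ℝ) (β : ℝ) : Prop where
  pos : 0 < β
  measurable : Measurable w
  bounded : ∃ W : ℝ, ∀ u, |w u| ≤ W
  support : ∀ u, β < u → w u = 0
  top : ∀ κ, κ < β → ¬ ∀ᵐ u, u ∈ Ioo κ β → w u = 0

/-- `w(u) → 1` for `u → 0` in the sense of Dini. -/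
def Normalised (w : ℝ → ℝ) (β : ℝ) : Prop :=
  IntegrableOn (fun u : ℝ => |w u - 1| / u) (Ioo 0 β)

/-- `w` has the square integrable derivative `-g` on `(0, β)`, `w(β) = 0` and `w(0) = 1`. -/
structure SquareIntegrable (w g : ℝ → ℝ) (β : ℝ) : Prop where
  pos : 0 < β
  measurable : AEStronglyMeasurable g (volume.restrict (Ioo 0 β))
  square : IntegrableOn (fun t => g t ^ 2) (Ioo 0 β)
  primitive : ∀ u, 0 < u → u ≤ β → w u = ∫ t in u..β, g t
  one : ∫ t in (0 : ℝ)..β, g t = 1

/-- The Riesz weight `(1 - u)^k`, to be used with `β = 1`. -/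
noncomputable def riesz (k u : ℝ) : ℝ := (1 - u) ^ k

/-- The `n`-th Fourier coefficient of `f`. -/
noncomputable def coef {N : ℕ} (f : CuspForm (Gamma0 N : Subgroup (GL (Fin 2) ℝ)) 2) (n : ℕ) : ℂ :=
  (qExpansion 1 f).coeff n

/-- `f ∈ S_2(Γ₀(N))` is the newform of the elliptic curve `E : y² = x³ + a x + b` of conductor `N`: the
Fourier coefficients `c(n)` of `f` are real with `c(1) = 1`, they satisfy the Hecke relations
`c(mn) = c(m) c(n)` for coprime `m`, `n` and `c(p^(j+2)) = c(p) c(p^(j+1)) - p c(p^j)` (without the last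
term if `p ∣ N`), `c(p) = a_p = p - N_p` (`N_p` affine points) for all primes `p ∤ 2Δ`, `|c(p)| ≤ 2 √p` for
all `p ∤ N` (Hasse) and `c(p) = 0, 1, -1` for `p ∣ N`. -/
structure IsNewformOf (a b : ℤ) (N : ℕ) (f : CuspForm (Gamma0 N : Subgroup (GL (Fin 2) ℝ)) 2) :
    Prop where
  one : coef f 1 = 1
  real : ∀ n, (coef f n).im = 0
  mul : ∀ m n : ℕ, Nat.Coprime m n → coef f (m * n) = coef f m * coef f n
  pow : ∀ p j : ℕ, p.Prime → coef f (p ^ (j + 2)) = coef f p * coef f (p ^ (j + 1)) -
      (if p ∣ N then 0 else (p : ℂ) * coef f (p ^ j))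
  points : ∀ p : ℕ, GoodPrime a b p → coef f p = (p : ℂ) - (pointCount a b p : ℂ)
  good : ∀ p : ℕ, p.Prime → ¬ p ∣ N → ‖coef f p‖ ≤ 2 * Real.sqrt p
  bad : ∀ p : ℕ, p.Prime → p ∣ N → coef f p = 0 ∨ coef f p = 1 ∨ coef f p = -1

/-- `F` has no zeros with `Re s > 1`. -/
def NoZeros (F : ℂ → ℂ) : Prop := ∀ s : ℂ, 1 < s.re → F s ≠ 0

theorem hecke {a b : ℤ} {N : ℕ} {f : CuspForm (Gamma0 N : Subgroup (GL (Fin 2) ℝ)) 2}
    (hf : IsNewformOf a b N f) : Pool.Agent.TH941.Hecke f where
  one := hf.one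
  real := hf.real
  mul := hf.mul
  pow := hf.pow
  good := hf.good
  bad := fun p hp h => by
    rcases hf.bad p hp h with h1 | h1 | h1
    · have h2 : ‖coef f p‖ ≤ 1 := by rw [h1]; simp
      exact h2
    · have h2 : ‖coef f p‖ ≤ 1 := by rw [h1]; simp
      exact h2
    · have h2 : ‖coef f p‖ ≤ 1 := by rw [h1]; simp
      exact h2

variable {a b : ℤ} {F : ℂ → ℂ} {w g : ℝ → ℝ} {β : ℝ}

theorem Weight.wt (h : Weight w β) : ∃ W : ℝ, Pool.Agent.TH942.LS.Wt w W β := by
  obtain ⟨W, hW⟩ := h.bounded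
  exact ⟨W, h.measurable, hW, h.pos, h.support⟩

theorem SquareIntegrable.l2 (h : SquareIntegrable w g β) : Pool.Agent.V11288.BS.L2 g β :=
  ⟨h.pos, h.measurable, h.square⟩

theorem int_eq (hβ : 0 < β) (g : ℝ → ℝ) : ∫ t in (0 : ℝ)..β, g t = ∫ t in Ioo 0 β, g t := by
  rw [intervalIntegral.integral_of_le hβ.le, integral_Ioc_eq_integral_Ioo]

theorem quot_of_lim {f : ℝ → ℝ} {r κ : ℝ}
    (h : Tendsto (fun X : ℝ => f X - r * Real.log (Real.log X)) atTop (𝓝 κ)) :
    Tendsto (fun X : ℝ => f X / Real.log (Real.log X)) atTop (𝓝 r) := by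
  have hll : Tendsto (fun X : ℝ => Real.log (Real.log X)) atTop atTop :=
    Real.tendsto_log_atTop.comp Real.tendsto_log_atTop
  have h1 := (h.div_atTop hll).add_const r
  rw [zero_add] at h1
  refine h1.congr' ?_
  filter_upwards [hll.eventually (eventually_gt_atTop 0)] with X hX
  field_simp
  ring

/-- the Riesz weights in terms of the library -/
theorem riesz_eq {k : ℝ} (hk : 0 < k) {X : ℝ} (hX : 1 < X) : weightedSum a b 1 (riesz k) X =
    Pool.Agent.TH942.LS.S Pool.Agent.TH942.LS.lm (Pool.Agent.TH942.LS.cE a b)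
      (Pool.Agent.TH942.RZ.rzw k) (Real.log X) := by
  rw [← Pool.Agent.TH942.RZ.rz_eq hk hX]
  unfold weightedSum Pool.Agent.TH942.RZ.rz riesz
  rw [Real.rpow_one]

theorem riesz_rzv (k : ℝ) {X : ℝ} (hX : 1 < X) : weightedSum a b 1 (riesz k) X =
    Pool.Agent.V11288.BS.mean a b 1 (Pool.Agent.TH942.RZ.rzv k) X := by
  refine Pool.Agent.V11288.BS.mean_congr hX fun u h0 h1 => ?_
  unfold riesz Pool.Agent.TH942.RZ.rzv Pool.Agent.TH942.RZ.rzw
  rw [indicator_of_mem (show u ∈ Ioc (0 : ℝ) 1 from ⟨h0, h1⟩), max_eq_left (by linarith)]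

/-- **Numerical forms of the conjecture with arbitrary weights of compact support.** -/
theorem result (a b : ℤ) (hΔ : 4 * a ^ 3 + 27 * b ^ 2 ≠ 0) (F : ℂ → ℂ) (hF : IsLSeries a b F) :
    (∀ (w : ℝ → ℝ) (β : ℝ), Weight w β → ∀ s : ℂ, 1 < s.re → F s = 0 →
      ∀ α K : ℝ, α < β * (s.re - 1) →
        ∃ᶠ X : ℝ in atTop, K * X ^ α < |weightedSum a b β w X|) ∧
    (∀ (w : ℝ → ℝ) (β : ℝ), Weight w β → Normalised w β → ∀ ρ : ℝ,
      Tendsto (fun X : ℝ => weightedSum a b β w X / Real.log (Real.log X)) atTop (𝓝 ρ) →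
        NoZeros F ∧ ∃ m : ℕ, ρ = m ∧ analyticOrderAt F 1 = m) ∧
    ∀ (N : ℕ) [NeZero N] (f : CuspForm (Gamma0 N : Subgroup (GL (Fin 2) ℝ)) 2),
      IsNewformOf a b N f →
    (NoZeros F → ∀ m : ℕ, analyticOrderAt F 1 = m → ∃ c : ℝ,
      iteratedDeriv m F 1 / (m.factorial : ℂ) =
        ((√2 * Real.exp (m * Real.eulerMascheroniConstant) / Real.exp c : ℝ) : ℂ) ∧
      (∀ (w g : ℝ → ℝ) (β : ℝ), SquareIntegrable w g β →
        Tendsto (fun X : ℝ => weightedSum a b β w X - m * Real.log (Real.log X)) atTop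
          (𝓝 (c + m * ∫ t in (0 : ℝ)..β, g t * Real.log t))) ∧
      ∀ k : ℝ, 0 < k →
        Tendsto (fun X : ℝ => weightedSum a b 1 (riesz k) X - m * Real.log (Real.log X)) atTop
          (𝓝 (c - m * (Real.eulerMascheroniConstant +
            deriv Real.Gamma (k + 1) / Real.Gamma (k + 1))))) ∧
    List.TFAE [
      NoZeros F ∧ analyticOrderAt F 1 = rank a b,
      ∃ (w : ℝ → ℝ) (β : ℝ), Weight w β ∧ Normalised w β ∧ Tendsto (fun X : ℝ =>
        weightedSum a b β w X / Real.log (Real.log X)) atTop (𝓝 (rank a b)),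
      ∃ (w g : ℝ → ℝ) (β : ℝ), SquareIntegrable w g β ∧ Tendsto (fun X : ℝ =>
        weightedSum a b β w X / Real.log (Real.log X)) atTop (𝓝 (rank a b)),
      ∃ k : ℝ, 0 < k ∧ Tendsto (fun X : ℝ =>
        weightedSum a b 1 (riesz k) X / Real.log (Real.log X)) atTop (𝓝 (rank a b)),
      ∀ (w g : ℝ → ℝ) (β : ℝ), SquareIntegrable w g β → ∃ κ : ℝ, Tendsto (fun X : ℝ =>
        weightedSum a b β w X - rank a b * Real.log (Real.log X)) atTop (𝓝 κ),
      ∀ k : ℝ, 0 < k → ∃ κ : ℝ, Tendsto (fun X : ℝ =>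
        weightedSum a b 1 (riesz k) X - rank a b * Real.log (Real.log X)) atTop (𝓝 κ)] := by
  -- the second statement
  have h2 : ∀ (w : ℝ → ℝ) (β : ℝ), Weight w β → Normalised w β → ∀ ρ : ℝ,
      Tendsto (fun X : ℝ => weightedSum a b β w X / Real.log (Real.log X)) atTop (𝓝 ρ) →
        NoZeros F ∧ ∃ m : ℕ, ρ = m ∧ analyticOrderAt F 1 = m := by
    intro w β hw hn ρ hρ
    obtain ⟨W, hW⟩ := hw.wt
    exact Pool.Agent.V11288.BS.form_S hF hW hw.top hn hρ
  -- weights with a square integrable derivative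
  have h2' : ∀ (w g : ℝ → ℝ) (β : ℝ), SquareIntegrable w g β → ∀ ρ : ℝ,
      Tendsto (fun X : ℝ => weightedSum a b β w X / Real.log (Real.log X)) atTop (𝓝 ρ) →
        NoZeros F ∧ ∃ m : ℕ, ρ = m ∧ analyticOrderAt F 1 = m := by
    intro w g β hw ρ hρ
    exact Pool.Agent.V11288.BS.form_L2 hF hw.l2 (by rw [← int_eq hw.pos]; exact hw.one)
      hw.primitive hρ
  refine ⟨fun w β hw s hs h0 α K hα => ?_, h2, fun N _ f hf => ?_⟩
  · obtain ⟨W, hW⟩ := hw.wt
    rw [Filter.Frequently]
    intro h
    refine Pool.Agent.TH942.LS.omega hF hW hw.top hs h0 hα (C := K) ?_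
    filter_upwards [h] with X hX
    exact not_lt.1 hX
  have hrs : Tendsto (rsSum a b) atTop (𝓝 0) :=
    (hecke hf).rsSum_tendsto hΔ fun p hp => hf.points p hp
  obtain ⟨C₀, κ₀, hg⟩ := Pool.Agent.TH270.MS.EQ.growth_F hΔ hF (hecke hf) fun p hp => hf.points p hp
  -- the law
  have h3 : NoZeros F → ∀ m : ℕ, analyticOrderAt F 1 = m → ∃ c : ℝ,
      iteratedDeriv m F 1 / (m.factorial : ℂ) =
        ((√2 * Real.exp (m * Real.eulerMascheroniConstant) / Real.exp c : ℝ) : ℂ) ∧
      (∀ (w g : ℝ → ℝ) (β : ℝ), SquareIntegrable w g β →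
        Tendsto (fun X : ℝ => weightedSum a b β w X - m * Real.log (Real.log X)) atTop
          (𝓝 (c + m * ∫ t in (0 : ℝ)..β, g t * Real.log t))) ∧
      ∀ k : ℝ, 0 < k →
        Tendsto (fun X : ℝ => weightedSum a b 1 (riesz k) X - m * Real.log (Real.log X)) atTop
          (𝓝 (c - m * (Real.eulerMascheroniConstant +
            deriv Real.Gamma (k + 1) / Real.Gamma (k + 1)))) := by
    intro hz m hm
    obtain ⟨c, hc⟩ := Pool.Agent.V11288.BS.lead_pos hΔ hrs hF hm hz
    refine ⟨c, hc, fun w g β hw => ?_, fun k hk => ?_⟩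
    · have h4 := Pool.Agent.V11288.BS.law_L2 hΔ hF hrs (by norm_num : (0 : ℝ) < 1 / 8) hg hz hm
        (Real.exp_pos c) hc hw.l2 (by rw [← int_eq hw.pos]; exact hw.one) hw.primitive
      rw [Real.log_exp, ← int_eq hw.pos] at h4
      exact h4
    · obtain ⟨κ, h4, h5⟩ := Pool.Agent.TH942.RZ.curve_riesz hΔ hrs
        (Pool.Agent.TH942.RZ.growth_newform hΔ hF (hecke hf) fun p hp => hf.points p hp) hF hm hz hk
      have h6 : κ = c - m * (Real.eulerMascheroniConstant +
            deriv Real.Gamma (k + 1) / Real.Gamma (k + 1)) := by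
        rw [hc] at h5
        have h7 : Real.exp κ * (√2 * Real.exp (m * Real.eulerMascheroniConstant) / Real.exp c) =
            √2 * Real.exp (-(m * (deriv Real.Gamma (k + 1) / Real.Gamma (k + 1)))) := by
          exact_mod_cast h5
        have h8 : (0 : ℝ) < √2 := by positivity
        have h9 : Real.exp κ * Real.exp (m * Real.eulerMascheroniConstant) =
            Real.exp (-(m * (deriv Real.Gamma (k + 1) / Real.Gamma (k + 1)))) * Real.exp c := by
          have e1 := (Real.exp_pos c).ne'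
          refine mul_left_cancel₀ h8.ne' ?_
          calc √2 * (Real.exp κ * Real.exp (m * Real.eulerMascheroniConstant)) =
              Real.exp κ * (√2 * Real.exp (m * Real.eulerMascheroniConstant) / Real.exp c) *
                Real.exp c := by field_simp
            _ = _ := by rw [h7]; ring
        rw [← Real.exp_add, ← Real.exp_add, Real.exp_eq_exp] at h9
        linarith
      rw [← h6]
      refine (h4.comp Real.tendsto_log_atTop).congr' ?_
      filter_upwards [eventually_gt_atTop 1] with X hX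
      simp only [Function.comp_apply]
      rw [riesz_eq hk hX]
  refine ⟨h3, ?_⟩
  · have hback : ∀ {ρ : ℝ}, ρ = rank a b → (NoZeros F ∧ ∃ m : ℕ, ρ = m ∧ analyticOrderAt F 1 = m) →
        NoZeros F ∧ analyticOrderAt F 1 = rank a b := by
      rintro ρ hρ ⟨h4, m, h5, h6⟩
      refine ⟨h4, ?_⟩
      have h7 : m = rank a b := by
        rw [h5] at hρ
        exact_mod_cast hρ
      rw [h6, h7]
    -- the weight `1 - u`
    have hsq : SquareIntegrable (fun u => 1 - u) (fun _ => 1) 1 := by
      refine ⟨one_pos, aestronglyMeasurable_const, integrableOn_const (by simp) enorm_ne_top,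
        fun u _ _ => ?_, ?_⟩
      · rw [intervalIntegral.integral_const, smul_eq_mul, mul_one]
      · rw [intervalIntegral.integral_const, smul_eq_mul, mul_one, sub_zero]
    tfae_have 1 → 5 := by
      rintro ⟨hz, hr⟩ w g β hw
      obtain ⟨c, -, h4, -⟩ := h3 hz _ hr
      exact ⟨_, h4 w g β hw⟩
    tfae_have 1 → 6 := by
      rintro ⟨hz, hr⟩ k hk
      obtain ⟨c, -, -, h4⟩ := h3 hz _ hr
      exact ⟨_, h4 k hk⟩
    tfae_have 5 → 3 := by
      intro h
      obtain ⟨κ, h4⟩ := h _ _ _ hsq
      exact ⟨_, _, _, hsq, quot_of_lim h4⟩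
    tfae_have 6 → 4 := by
      intro h
      obtain ⟨κ, h4⟩ := h 1 one_pos
      exact ⟨1, one_pos, quot_of_lim h4⟩
    tfae_have 3 → 1 := by
      rintro ⟨w, g, β, hw, h⟩
      exact hback rfl (h2' w g β hw _ h)
    tfae_have 4 → 2 := by
      rintro ⟨k, hk, h⟩
      refine ⟨Pool.Agent.TH942.RZ.rzv k, 1, ⟨one_pos, (Pool.Agent.TH942.RZ.rzv_Wt hk).meas,
        ⟨1, (Pool.Agent.TH942.RZ.rzv_Wt hk).bd⟩, (Pool.Agent.TH942.RZ.rzv_Wt hk).supp,
        Pool.Agent.TH942.RZ.rzv_top⟩, Pool.Agent.TH942.RZ.rzv_dini hk, h.congr' ?_⟩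
      filter_upwards [eventually_gt_atTop 1] with X hX
      rw [riesz_rzv k hX]
      rfl
    tfae_have 2 → 1 := by
      rintro ⟨w, β, hw, hn, h⟩
      exact hback rfl (h2 w β hw hn _ h)
    tfae_finish

end Pool.Agent.Results.MP_696deb_nt.EveryCompactWeight
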