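import Pool.Agent.V11289.SL.Cur

/-!
# Sectorial forms of the conjecture of Birch and Swinnerton-Dyer

Let `C : y² = x³ + a x + b` be an elliptic curve over `ℚ`, `a, b ∈ ℤ`, let `N_p` be the number of
affine points modulo the good primes `p ∤ 2Δ`, and let `F` be the entire continuation of the
incomplete `L`-series. The numerical form in which Birch and Swinnerton-Dyer found their conjecture,
`∏_{p ≤ X} (N_p + 1)/p ~ A (log X)^rank`, implies the Riemann hypothesis for `F` (Goldfeld 1982) and
even more (Kuo and Murty, Conrad 2005), while there are weights for which the numerical form is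
equivalent to the rank form without information on zeros. Here is a scale of numerical forms, with
parameters `g > 1` and `|φ| < (π/2)(1 - 1/g)`, which interpolates between the two extremes: each member
is EQUIVALENT to the rank form together with the absence of zeros of `F` in one sector.

With the Wright function `K_g(v) = ∑ (-v)^n / (n! Γ(1 - n/g))` (it is `erfc (v/2)` for `g = 2`), put

`S(X) = ∑_{p ∤ 2Δ} K_g(e^{iφ} log p / log X) log ((N_p + 1)/p)`,

an absolutely convergent series for `X > 1`. Let `A_{g,φ}` be the open sector with vertex `1`, opening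
`π/g` and axis in the direction `e^{iφ}`. Then

* if `F` has no zeros in `A_{g,φ}`, then `S(X) = r log log X + O(1)`, `r = ord_{s=1} F`; zeros on the
  boundary of the sector are allowed;
* if `F` has a zero `ρ` in `A_{g,φ}`, then `|S(X)| ≥ exp (c (log X)^g)` for arbitrarily large `X`, for
  every `c < Re ((ρ - 1) e^{-iφ})^g`.

So `S(X) / log log X → rank C(ℚ)` if and only if `ord_{s=1} F = rank C(ℚ)` and `F ≠ 0` in `A_{g,φ}`. For
`φ = 0` and `g → 1` the sectors exhaust the half plane `Re s > 1`, and all these forms together are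
equivalent to the rank form and the Riemann hypothesis for `C`.

Proof. `K_g` is an integral of Hankel's type, and with `t = (log X)^g` and `e^z` for the variable of
the Laplace transform, `S(X)` is the integral of `exp (t e^z) log F(1 + e^{iφ} e^{z/g})` around a half
strip `|Im z| ≤ h` with `h` slightly larger than `π/2`; the half strip `|Im z| < π/2` corresponds to the
sector. For the first statement the contour is moved to the left; near the zeros on the boundary of
the sector it is kept at a distance `1/t` inside. For the second statement the Laplace transform of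
`S` in `t` is computed from the contour integral; if `S` were small, it would give a continuation of
`log F` to the zero. The passage from `L(C, s)` to the numbers `(N_p + 1)/p` uses Hasse's bound and the
pole of the zeta function only (library of helpers 189, 263, 524).
-/

set_option autoImplicit false

namespace Pool.Agent.Results.MP_696deb_nt.SectorialLaws

open Pool.Agent.W263.BSD Filter Topology Classical

/-- The Wright function `K_g(v) = ∑ (-v)^n / (n! Γ(1 - n/g))`. -/
noncomputable def wright (g : ℝ) (v : ℂ) : ℂ :=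
  ∑' n : ℕ, (-v) ^ n / ((n.factorial : ℂ) * Complex.Gamma (1 - (n : ℂ) / g))

/-- The term of `S(X)` at `p`. -/
noncomputable def wTerm (a b : ℤ) (g φ X : ℝ) (p : ℕ) : ℂ :=
  if GoodPrime a b p then
    wright g (Complex.exp (φ * Complex.I) * (Real.log p / Real.log X)) *
      (Real.log (((pointCount a b p : ℝ) + 1) / p) : ℂ) else 0

/-- `S(X)`. -/
noncomputable def wSum (a b : ℤ) (g φ X : ℝ) : ℂ := ∑' p : ℕ, wTerm a b g φ X p

/-- The open sector with vertex `1`, opening `π/g` and axis in the direction `e^{iφ}`. -/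
def Sector (g φ : ℝ) : Set ℂ :=
  {s | s ≠ 1 ∧ |Complex.arg ((s - 1) * Complex.exp (-(φ * Complex.I)))| < Real.pi / (2 * g)}

/-- The rank of the group of rational points of `y² = x³ + a x + b`. -/
noncomputable def rank (a b : ℤ) : ℕ :=
  Module.finrank ℤ
    (WeierstrassCurve.Affine.Point
      (WeierstrassCurve.toAffine
        ({ a₁ := 0, a₂ := 0, a₃ := 0, a₄ := (a : ℚ), a₆ := (b : ℚ) } : WeierstrassCurve ℚ)))

theorem loglog_tendsto : Tendsto (fun X : ℝ => Real.log (Real.log X)) atTop atTop :=
  Real.tendsto_log_atTop.comp Real.tendsto_log_atTop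

theorem quot_of_bdd {f : ℝ → ℂ} {r M : ℝ}
    (h : ∀ᶠ X : ℝ in atTop, ‖f X - r * (Real.log (Real.log X) : ℂ)‖ ≤ M) :
    Tendsto (fun X : ℝ => f X / (Real.log (Real.log X) : ℂ)) atTop (𝓝 (r : ℂ)) := by
  rw [tendsto_iff_norm_sub_tendsto_zero]
  refine squeeze_zero' (g := fun X => M * (Real.log (Real.log X))⁻¹)
    (Eventually.of_forall fun X => norm_nonneg _) ?_ ?_
  · filter_upwards [h, loglog_tendsto.eventually (eventually_gt_atTop 0)] with X h5 h6
    have h6' : ((Real.log (Real.log X) : ℝ) : ℂ) ≠ 0 := by exact_mod_cast h6.ne'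
    have h7 : f X / (Real.log (Real.log X) : ℂ) - r =
        (f X - r * (Real.log (Real.log X) : ℂ)) / (Real.log (Real.log X) : ℂ) := by
      field_simp
    rw [h7, norm_div, Complex.norm_real, Real.norm_of_nonneg h6.le, div_eq_mul_inv]
    gcongr
  · have := (tendsto_inv_atTop_zero.comp loglog_tendsto).const_mul M
    simpa using this

theorem term_eq (a b : ℤ) (g φ X : ℝ) (p : ℕ) : wTerm a b g φ X p =
    Pool.Agent.V11289.SL.trm (fun p : ℕ => Real.log p) (Pool.Agent.V11289.SL.cg a b) g φ
      (Real.log X) p := by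
  unfold wTerm Pool.Agent.V11289.SL.trm Pool.Agent.V11289.SL.cg
  split_ifs with h
  · unfold Pool.Agent.W263.BSD.lp wright Pool.Agent.V11289.SL.kern
    rw [mul_comm, mul_div_assoc]
  · simp

theorem sum_eq (a b : ℤ) (g φ X : ℝ) : wSum a b g φ X =
    Pool.Agent.V11289.SL.WM (fun p : ℕ => Real.log p) (Pool.Agent.V11289.SL.cg a b) g φ
      (Real.log X) := by
  unfold wSum Pool.Agent.V11289.SL.WM
  simp only [term_eq]

/-- The law for one sector. -/
theorem law (a b : ℤ) {F : ℂ → ℂ} (hF : IsLSeries a b F) {g φ : ℝ} (hg : 1 < g)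
    (hφ : |φ| < Real.pi / 2 * (1 - 1 / g)) {r : ℕ} (hr : analyticOrderAt F 1 = r) :
    (∀ X : ℝ, 1 < X → Summable fun p : ℕ => ‖wTerm a b g φ X p‖) ∧
    ((∀ s ∈ Sector g φ, F s ≠ 0) →
      ∃ M : ℝ, ∀ᶠ X : ℝ in atTop, ‖wSum a b g φ X - r * (Real.log (Real.log X) : ℂ)‖ ≤ M) ∧
    (∀ s ∈ Sector g φ, F s = 0 →
      0 < ((((s - 1) * Complex.exp (-(φ * Complex.I))) ^ (g : ℂ)).re) ∧
      ∀ c : ℝ, c < (((s - 1) * Complex.exp (-(φ * Complex.I))) ^ (g : ℂ)).re →
        ∃ᶠ X : ℝ in atTop, Real.exp (c * Real.log X ^ g) ≤ ‖wSum a b g φ X‖) := by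
  obtain ⟨h, κ, A, p⟩ := Pool.Agent.V11289.SL.exists_par hg hφ
  have D := Pool.Agent.V11289.SL.dat hF
  have hpi := Real.pi_pos
  refine ⟨fun X hX => ?_, fun hz => ?_, fun s hs hFs => ?_⟩
  · have := (Pool.Agent.V11289.SL.WM_hasSum D p (Real.log_pos hX)).summable.norm
    refine this.congr fun q => ?_
    rw [term_eq]
  · obtain ⟨Q, hQa, hQ0, hQ⟩ := Pool.Agent.V11289.SL.exists_Q0 hF hr
    obtain ⟨M, hM⟩ := Pool.Agent.V11289.SL.up D p (fun z hzz => by
      have hre := Pool.Agent.V11289.SL.om_re_pos p (z := z) (by linarith [p.h1])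
      rw [Ne, Pool.Agent.V11289.SL.Phi_zero_iff hre.le]
      refine hz _ ⟨?_, ?_⟩
      · intro h0
        exact Pool.Agent.V11289.SL.om_ne g φ z (by simpa using h0)
      · rw [add_sub_cancel_left]
        exact Pool.Agent.V11289.SL.sector_of_om hg hzz) r hQa hQ0 hQ
    refine ⟨M, ?_⟩
    filter_upwards [Real.tendsto_log_atTop.eventually hM] with X hX
    rw [sum_eq]
    exact hX
  · obtain ⟨z, hz1, hz2, hz3⟩ := Pool.Agent.V11289.SL.om_of_sector hg (sub_ne_zero.2 hs.1) hs.2
    have hz1' := abs_lt.1 hz1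
    rw [← hz3]
    refine ⟨?_, fun c hc => ?_⟩
    · rw [Complex.exp_re]
      exact mul_pos (Real.exp_pos _) (Real.cos_pos_of_mem_Ioo ⟨hz1'.1, hz1'.2⟩)
    · have hre := Pool.Agent.V11289.SL.om_re_pos p (z := z) (by linarith [p.h1])
      have hP : PhiF a b F (Pool.Agent.V11289.SL.om g φ z) = 0 := by
        rw [Pool.Agent.V11289.SL.Phi_zero_iff hre.le, hz2]
        simpa using hFs
      have h1 := Pool.Agent.V11289.SL.low D p hz1 hP hc
      have h2 : ∃ᶠ X : ℝ in atTop, Real.exp (c * Real.log (Real.exp X) ^ g) ≤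
          ‖wSum a b g φ (Real.exp X)‖ := by
        refine h1.mono fun T hT => ?_
        rw [sum_eq, Real.log_exp]
        exact hT
      exact Real.tendsto_exp_atTop.frequently h2

/-- The numerical form for one sector. -/
theorem form (a b : ℤ) {F : ℂ → ℂ} (hF : IsLSeries a b F) {g φ : ℝ} (hg : 1 < g)
    (hφ : |φ| < Real.pi / 2 * (1 - 1 / g)) {r : ℕ} (hr : analyticOrderAt F 1 = r) :
    Tendsto (fun X : ℝ => wSum a b g φ X / (Real.log (Real.log X) : ℂ)) atTop (𝓝 (rank a b : ℂ)) ↔
      analyticOrderAt F 1 = (rank a b : ℕ∞) ∧ ∀ s ∈ Sector g φ, F s ≠ 0 := by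
  obtain ⟨-, h1, h2⟩ := law a b hF hg hφ hr
  have hg0 : 0 < g := by linarith
  constructor
  · intro ht
    have hz : ∀ s ∈ Sector g φ, F s ≠ 0 := by
      intro s hs hFs
      obtain ⟨hpos, h3⟩ := h2 s hs hFs
      obtain ⟨c, hc0, hc⟩ := exists_between hpos
      have h4 := h3 c hc
      -- upper bound
      have h5 : ∀ᶠ X : ℝ in atTop,
          ‖wSum a b g φ X / (Real.log (Real.log X) : ℂ)‖ < rank a b + 1 := by
        have := ht.norm
        rw [Complex.norm_natCast] at this
        exact this.eventually (gt_mem_nhds (by linarith))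
      have h6 : ∀ᶠ T : ℝ in atTop, (rank a b + 1) * Real.log T < Real.exp (c * T ^ g) := by
        have e1 : Tendsto (fun T : ℝ => c * T ^ g) atTop atTop :=
          (tendsto_rpow_atTop hg0).const_mul_atTop hc0
        have e2 : ∀ᶠ T : ℝ in atTop, (rank a b + 1 : ℝ) * T ≤ c * T ^ g := by
          have e3 : Tendsto (fun T : ℝ => T ^ (g - 1)) atTop atTop :=
            tendsto_rpow_atTop (by linarith)
          filter_upwards [e3.eventually (eventually_ge_atTop ((rank a b + 1 : ℝ) / c)),
            eventually_gt_atTop 0] with T h7 h8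
          rw [div_le_iff₀ hc0] at h7
          have e4 : T ^ g = T ^ (g - 1) * T := by
            rw [← Real.rpow_add_one h8.ne']
            congr 1
            ring
          rw [e4]
          nlinarith
        filter_upwards [e2, eventually_gt_atTop 0] with T h7 h8
        have h9 : Real.log T < T := (Real.log_le_sub_one_of_pos h8).trans_lt (by linarith)
        have h10 : c * T ^ g < Real.exp (c * T ^ g) := by
          have := Real.add_one_le_exp (c * T ^ g)
          linarith
        have h11 : (0 : ℝ) < (rank a b : ℝ) + 1 := by positivity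
        nlinarith
      have h7 := Real.tendsto_log_atTop.eventually h6
      obtain ⟨X, h8, h9, h10, h11⟩ := (h4.and_eventually (h5.and (h7.and
        (loglog_tendsto.eventually (eventually_gt_atTop 0))))).exists
      rw [norm_div, Complex.norm_real, Real.norm_of_nonneg h11.le, div_lt_iff₀ h11] at h9
      linarith
    obtain ⟨M, hM⟩ := h1 hz
    have h3 := quot_of_bdd (r := (r : ℝ)) (f := wSum a b g φ) (M := M) (by simpa using hM)
    have h4 := tendsto_nhds_unique h3 ht
    have h5 : r = rank a b := by exact_mod_cast h4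
    exact ⟨by rw [hr, h5], hz⟩
  · rintro ⟨h3, hz⟩
    obtain ⟨M, hM⟩ := h1 hz
    have h4 : r = rank a b := by
      rw [hr] at h3
      exact_mod_cast h3
    have h5 := quot_of_bdd (r := (r : ℝ)) (f := wSum a b g φ) (M := M) (by simpa using hM)
    rw [h4] at h5
    exact_mod_cast h5

/-- **Sectorial forms of the conjecture of Birch and Swinnerton-Dyer.** -/
theorem result (a b : ℤ) (_hΔ : 4 * a ^ 3 + 27 * b ^ 2 ≠ 0) (F : ℂ → ℂ) (hF : IsLSeries a b F) :
    (∀ g φ : ℝ, 1 < g → |φ| < Real.pi / 2 * (1 - 1 / g) →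
      (∀ X : ℝ, 1 < X → Summable fun p : ℕ => ‖wTerm a b g φ X p‖) ∧
      (∃ r : ℕ, analyticOrderAt F 1 = r ∧ ((∀ s ∈ Sector g φ, F s ≠ 0) →
        ∃ M : ℝ, ∀ᶠ X : ℝ in atTop, ‖wSum a b g φ X - r * (Real.log (Real.log X) : ℂ)‖ ≤ M)) ∧
      (∀ s ∈ Sector g φ, F s = 0 →
        0 < ((((s - 1) * Complex.exp (-(φ * Complex.I))) ^ (g : ℂ)).re) ∧
        ∀ c : ℝ, c < (((s - 1) * Complex.exp (-(φ * Complex.I))) ^ (g : ℂ)).re →
          ∃ᶠ X : ℝ in atTop, Real.exp (c * Real.log X ^ g) ≤ ‖wSum a b g φ X‖) ∧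
      (Tendsto (fun X : ℝ => wSum a b g φ X / (Real.log (Real.log X) : ℂ)) atTop
          (𝓝 (rank a b : ℂ)) ↔
        analyticOrderAt F 1 = (rank a b : ℕ∞) ∧ ∀ s ∈ Sector g φ, F s ≠ 0)) ∧
    ((∀ g : ℝ, 1 < g → Tendsto (fun X : ℝ => wSum a b g 0 X / (Real.log (Real.log X) : ℂ)) atTop
        (𝓝 (rank a b : ℂ))) ↔
      analyticOrderAt F 1 = (rank a b : ℕ∞) ∧ ∀ s : ℂ, 1 < s.re → F s ≠ 0) := by
  have hpi := Real.pi_pos
  obtain ⟨r, hr⟩ := Pool.Agent.W189.ML.order_finite_all hF 1
  refine ⟨fun g φ hg hφ => ?_, ?_⟩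
  · obtain ⟨h1, h2, h3⟩ := law a b hF hg hφ hr
    exact ⟨h1, ⟨r, hr, h2⟩, h3, form a b hF hg hφ hr⟩
  · have h0 : ∀ g : ℝ, 1 < g → |(0 : ℝ)| < Real.pi / 2 * (1 - 1 / g) := by
      intro g hg
      rw [abs_zero]
      have : 1 / g < 1 := by rw [div_lt_one (by linarith)]; exact hg
      exact mul_pos (by positivity) (by linarith)
    constructor
    · intro h
      have h2 := (form a b hF (g := 2) (by norm_num) (h0 2 (by norm_num)) hr).1 (h 2 (by norm_num))
      refine ⟨h2.1, fun s hs hFs => ?_⟩
      have hre : 0 < (s - 1).re := by simpa using hs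
      have harg : |Complex.arg (s - 1)| < Real.pi / 2 :=
        Complex.abs_arg_lt_pi_div_two_iff.2 (Or.inl hre)
      obtain ⟨g, hg, hg2⟩ : ∃ g : ℝ, 1 < g ∧ |Complex.arg (s - 1)| < Real.pi / (2 * g) := by
        obtain ⟨y, hy1, hy2⟩ := exists_between harg
        have hy0 : 0 < y := (abs_nonneg _).trans_lt hy1
        refine ⟨Real.pi / (2 * y), ?_, ?_⟩
        · rw [lt_div_iff₀ (by positivity)]
          linarith
        · have : Real.pi / (2 * (Real.pi / (2 * y))) = y := by field_simp
          rw [this]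
          exact hy1
      have h3 := (form a b hF hg (h0 g hg) hr).1 (h g hg)
      refine h3.2 s ⟨fun h4 => ?_, ?_⟩ hFs
      · rw [h4] at hre
        simp at hre
      · simpa using hg2
    · rintro ⟨h1, h2⟩ g hg
      refine (form a b hF hg (h0 g hg) hr).2 ⟨h1, fun s hs => h2 s ?_⟩
      have h3 := hs.2
      simp only [Complex.ofReal_zero, zero_mul, neg_zero, Complex.exp_zero, mul_one] at h3
      have h4 : Real.pi / (2 * g) < Real.pi / 2 := by
        apply div_lt_div_of_pos_left hpi (by norm_num) (by linarith)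
      have h5 := Complex.abs_arg_lt_pi_div_two_iff.1 (h3.trans h4)
      rcases h5 with h5 | h5
      · simpa using h5
      · exact absurd h5 (sub_ne_zero.2 hs.1)

end Pool.Agent.Results.MP_696deb_nt.SectorialLaws
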