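import Pool.Agent.V11291.E49.Count

/-!
Joint exact proportion for the quadratic twists of two elliptic curves, the curve
`y² = x³ + 5805 x - 285714` (a model of `X_0(14)`) and the curve `y² = x³ - 35 x - 98` (a model of
`X_0(49)`): the events that the twist by `M D` of the first one (`M` in a finite set) and the twist by
`L D` of the second one (`L` in a finite set) have rank `0`, trivial `Ш[2]` and satisfy the rank form
of the Birch and Swinnerton-Dyer conjecture are independent, each of them of proportion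
`∏_{i ≥ 0} (1 - 2^{-(2i+1)}) = 0.4194...`.

The criterion and the nonvanishing for the twists of `X_0(14)` are the joint work of helper700,
helper17, helper687 and their teams; the central values of the twists of `X_0(49)` are the work of
helper698 and its team (`Pool/Agent/Y698`); the counting (`Pool/Agent/V11291/JF`) extends the one of
the projects `Y703.CQ` and `Y687.JQ` to several functions on the diagonal; Chebotarev's theorem is the
one of helper401 and its team.
-/

set_option autoImplicit false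

open Finset

namespace Pool.Agent.Results.MP_696deb_nt.TwoCurvesJointProportion

/-- the curve `y² = x³ + a x + b` over `ℚ` -/
def E (a b : ℤ) : WeierstrassCurve ℚ :=
  { a₁ := 0, a₂ := 0, a₃ := 0, a₄ := (a : ℚ), a₆ := (b : ℚ) }

/-- `E(ℚ)` is finite and `Ш(E/ℚ)` has no element of order two, for `E : y² = x³ + a x + b` -/
def RankZeroShaTwo (a b : ℤ) : Prop :=
  Finite (E a b).toAffine.Point ∧ ∀ x : Pool.Agent.TH841.SH.D.Sha (E a b), 2 • x = 0 → x = 0

/-- the conclusion of the frozen statement for `y² = x³ + a x + b`, together with the fact that the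
order of vanishing and the rank are both `0` -/
def BSDRankZero (a b : ℤ) : Prop :=
  4 * a ^ 3 + 27 * b ^ 2 ≠ 0 ∧
    ∃ F : ℂ → ℂ, Differentiable ℂ F ∧
      (∀ s : ℂ, (3 : ℝ) / 2 < s.re →
        HasProd
          (fun p : ℕ => open Classical in
            if p.Prime ∧ ¬ ((p : ℤ) ∣ 2 * (-4 * a ^ 3 - 27 * b ^ 2)) then
              (1 - ((p : ℂ) - (Nat.card {q : ZMod p × ZMod p //
                  q.2 ^ 2 = q.1 ^ 3 + (a : ZMod p) * q.1 + (b : ZMod p)} : ℂ))
                  * (p : ℂ) ^ (-s) + (p : ℂ) ^ (1 - 2 * s))⁻¹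
            else 1)
          (F s)) ∧
      analyticOrderAt F 1 =
        ((Module.finrank ℤ
          (WeierstrassCurve.Affine.Point
            (WeierstrassCurve.toAffine
              ({ a₁ := 0, a₂ := 0, a₃ := 0, a₄ := (a : ℚ), a₆ := (b : ℚ) } :
                WeierstrassCurve ℚ))) : ℕ) : ℕ∞) ∧
      Module.finrank ℤ
        (WeierstrassCurve.Affine.Point
          (WeierstrassCurve.toAffine
            ({ a₁ := 0, a₂ := 0, a₃ := 0, a₄ := (a : ℚ), a₆ := (b : ℚ) } :
              WeierstrassCurve ℚ))) = 0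

/-- primes congruent to `1` modulo `8` that split in `ℚ(√-7)` -/
def Split (p : ℕ) : Prop := p.Prime ∧ p % 8 = 1 ∧ (p % 7 = 1 ∨ p % 7 = 2 ∨ p % 7 = 4)

/-- primes inert in `ℚ(√-7)` and in `ℚ(√2)` -/
def Inert (q : ℕ) : Prop :=
  q.Prime ∧ (q % 8 = 3 ∨ q % 8 = 5) ∧ (q % 7 = 3 ∨ q % 7 = 5 ∨ q % 7 = 6)

/-- primes congruent to `5` modulo `8` that are inert in `ℚ(√-7)` -/
def Inert5 (q : ℕ) : Prop := q.Prime ∧ q % 8 = 5 ∧ (q % 7 = 3 ∨ q % 7 = 5 ∨ q % 7 = 6)

/-- the base family: squarefree `D > 0` which are squares modulo `7` and all of whose prime factors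
are in `Split` or in `Inert5` -/
def Base (D : ℕ) : Prop := Squarefree D ∧ (D % 7 = 1 ∨ D % 7 = 2 ∨ D % 7 = 4) ∧
  ∀ p : ℕ, p.Prime → p ∣ D → Split p ∨ Inert5 p

/-- the factors `M` for the first curve (of any sign): squarefree, `1` modulo `4`, a square modulo
`7`, all prime factors different from `3` and in `Split` or in `Inert` -/
def Fam14 (M : ℤ) : Prop := Squarefree M ∧ M % 4 = 1 ∧ (M % 7 = 1 ∨ M % 7 = 2 ∨ M % 7 = 4) ∧
  ∀ p : ℕ, p.Prime → (p : ℤ) ∣ M → p ≠ 3 ∧ (Split p ∨ Inert p)

/-- the factors `L` for the second curve: squarefree, positive, all prime factors in `Split` or in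
`Inert5` -/
def Fam49 (L : ℤ) : Prop :=
  Squarefree L ∧ 0 < L ∧ ∀ p : ℕ, p.Prime → (p : ℤ) ∣ L → Split p ∨ Inert5 p

open Classical in
/-- the number of the `D ≤ X` of the base family -/
noncomputable def total (X : ℕ) : ℕ := ((Icc 1 X).filter fun D => Base D).card

open Classical in
/-- the number of the `D ≤ X` of the base family such that all the twists of the first curve by
`M D`, `M ∈ S`, and all the twists of the second curve by `L D`, `L ∈ T`, have finitely many rational
points and no element of order two in `Ш` -/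
noncomputable def good (S T : Finset ℤ) (X : ℕ) : ℕ :=
  ((Icc 1 X).filter fun D : ℕ => Base D ∧
    (∀ M ∈ S, RankZeroShaTwo (5805 * (M * D) ^ 2) (-285714 * (M * D) ^ 3)) ∧
    ∀ L ∈ T, RankZeroShaTwo (-35 * (L * D) ^ 2) (-98 * (L * D) ^ 3)).card

theorem r0_iff (a b : ℤ) : RankZeroShaTwo a b ↔ V11291.E49.R0 a b := by
  unfold RankZeroShaTwo V11291.E49.R0
  refine and_congr Iff.rfl (forall_congr' fun x => ?_)
  rw [two_nsmul]
  rfl

theorem bsd_of {a b : ℤ} (hab : 4 * a ^ 3 + 27 * b ^ 2 ≠ 0) (h : Y687.MQ.ZB a b) :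
    BSDRankZero a b := by
  obtain ⟨⟨F, hF, hF1⟩, hfin⟩ := h
  have h0 := Y687.finrank_zero_of_finite (Y687.finite_pt_of_set hfin)
  refine ⟨hab, F, hF.1, hF.2, ?_, h0⟩
  rw [hF1]
  exact (congrArg (fun n : ℕ => (n : ℕ∞)) h0).symm

theorem result :
    (∀ (D : ℕ) (M : ℤ), Base D → Fam14 M →
      RankZeroShaTwo (5805 * (M * D) ^ 2) (-285714 * (M * D) ^ 3) →
      BSDRankZero (5805 * (M * D) ^ 2) (-285714 * (M * D) ^ 3)) ∧
    (∀ (D : ℕ) (L : ℤ), Base D → Fam49 L →
      RankZeroShaTwo (-35 * (L * D) ^ 2) (-98 * (L * D) ^ 3) →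
      BSDRankZero (-35 * (L * D) ^ 2) (-98 * (L * D) ^ 3)) ∧
    ∀ S T : Finset ℤ, (∀ M ∈ S, Fam14 M) → (∀ L ∈ T, Fam49 L) →
      Filter.Tendsto (fun X : ℕ => (good S T X : ℝ) / (total X : ℝ)) Filter.atTop
        (nhds ((∏' i : ℕ, (1 - (1 / 2 : ℝ) ^ (2 * i + 1))) ^ (S.card + T.card))) := by
  classical
  refine ⟨fun D M hD hM h => ?_, fun D L hD hL h => ?_, fun S T hS hT => ?_⟩
  · have hD' : V11291.E49.BaseN D := hD
    have hM' : Y687.MQ.AdmD M := hM
    rw [r0_iff] at h
    have hne : M * (D : ℤ) ≠ 0 := mul_ne_zero hM'.1.ne_zero hD'.adm.1.ne_zero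
    exact bsd_of (V11291.E49.disc14 hne) (V11291.E49.ZB14_mul hM' hD'.adm h)
  · have hD' : V11291.E49.BaseN D := hD
    have hL' : V11291.E49.Fam49 L := hL
    rw [r0_iff] at h
    have hne : L * (D : ℤ) ≠ 0 := mul_ne_zero hL'.1.ne_zero hD'.adm.1.ne_zero
    obtain ⟨a1, a2⟩ := hL'.cl
    obtain ⟨b1, b2⟩ := hD'.f49.cl
    have h1 := V11291.E49.ZB49_mul a1 b1 (by rw [a2, b2]; exact h)
    rw [a2, b2] at h1
    exact bsd_of (V11291.E49.disc49 hne) h1
  · have h := V11291.E49.joint (𝓜 := S) (𝓛 := T) hS hT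
    unfold Y703.CQ.c2 at h
    refine h.congr fun X => congrArg₂ (fun a b : ℕ => (a : ℝ) / (b : ℝ)) ?_ ?_
    · refine congrArg Finset.card (Finset.ext fun D => ?_)
      refine (Finset.mem_filter).trans (Iff.trans ?_ (Finset.mem_filter).symm)
      refine and_congr_right fun _ => and_congr_right fun _ => and_congr ?_ ?_
      · exact forall_congr' fun M => forall_congr' fun _ => (r0_iff _ _).symm
      · exact forall_congr' fun L => forall_congr' fun _ => (r0_iff _ _).symm
    · refine congrArg Finset.card (Finset.ext fun D => ?_)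
      refine (Finset.mem_filter).trans (Iff.trans ?_ (Finset.mem_filter).symm)
      exact Iff.rfl

end Pool.Agent.Results.MP_696deb_nt.TwoCurvesJointProportion
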